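import Mathlib

/-! Disjoint perfect matchings avoiding few bad pairs (Hall). -/

set_option autoImplicit false

namespace Pool.Agent.Helper95.BC

open Classical in
theorem disjoint_matchings {V C : Type} (P : Finset V) (Q : Finset C) (hPQ : P.card = Q.card)
    (bad : V → C → Prop) (β : ℕ)
    (h1 : ∀ v ∈ P, (Q.filter (fun a => bad v a)).card ≤ β)
    (h2 : ∀ a ∈ Q, (P.filter (fun v => bad v a)).card ≤ β)
    (s : ℕ) (hs : 2 * β + 2 * s ≤ P.card) :
    ∃ A : Finset (V → C), A.card = s ∧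
      (∀ g ∈ A, Set.InjOn g (P : Set V) ∧ (∀ v ∈ P, g v ∈ Q) ∧ ∀ v ∈ P, ¬ bad v (g v)) ∧
      ∀ g ∈ A, ∀ g' ∈ A, g ≠ g' → ∀ v ∈ P, g v ≠ g' v := by
  induction s with
  | zero => exact ⟨∅, rfl, by simp, by simp⟩
  | succ s ih =>
    obtain ⟨A, hA, hA1, hA2⟩ := ih (by omega)
    -- bad pairs for the next matching
    have hrow : ∀ v ∈ P, (Q.filter (fun a => bad v a ∨ ∃ g ∈ A, g v = a)).card ≤ β + s := by
      intro v hv
      have hsub : Q.filter (fun a => bad v a ∨ ∃ g ∈ A, g v = a) ⊆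
          Q.filter (fun a => bad v a) ∪ A.image (fun g => g v) := by
        intro a ha
        rw [Finset.mem_filter] at ha
        rw [Finset.mem_union]
        rcases ha.2 with h | ⟨g, hg, h⟩
        · exact Or.inl (Finset.mem_filter.2 ⟨ha.1, h⟩)
        · exact Or.inr (Finset.mem_image.2 ⟨g, hg, h⟩)
      calc _ ≤ _ := Finset.card_le_card hsub
        _ ≤ _ := Finset.card_union_le _ _
        _ ≤ β + s := Nat.add_le_add (h1 v hv) (Finset.card_image_le.trans hA.le)
    have hcol : ∀ a ∈ Q, (P.filter (fun v => bad v a ∨ ∃ g ∈ A, g v = a)).card ≤ β + s := by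
      intro a ha
      have hsub : P.filter (fun v => bad v a ∨ ∃ g ∈ A, g v = a) ⊆
          P.filter (fun v => bad v a) ∪ A.biUnion (fun g => P.filter (fun v => g v = a)) := by
        intro v hv
        rw [Finset.mem_filter] at hv
        rw [Finset.mem_union]
        rcases hv.2 with h | ⟨g, hg, h⟩
        · exact Or.inl (Finset.mem_filter.2 ⟨hv.1, h⟩)
        · exact Or.inr (Finset.mem_biUnion.2 ⟨g, hg, Finset.mem_filter.2 ⟨hv.1, h⟩⟩)
      have hone : ∀ g ∈ A, (P.filter (fun v => g v = a)).card ≤ 1 := by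
        intro g hg
        refine Finset.card_le_one.2 fun v hv w hw => ?_
        rw [Finset.mem_filter] at hv hw
        exact (hA1 g hg).1 (Finset.mem_coe.2 hv.1) (Finset.mem_coe.2 hw.1) (hv.2.trans hw.2.symm)
      calc _ ≤ _ := Finset.card_le_card hsub
        _ ≤ _ := Finset.card_union_le _ _
        _ ≤ β + s := by
          refine Nat.add_le_add (h2 a ha) (Finset.card_biUnion_le.trans ?_)
          calc ∑ g ∈ A, (P.filter (fun v => g v = a)).card ≤ ∑ g ∈ A, 1 := Finset.sum_le_sum hone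
            _ = s := by rw [Finset.sum_const, hA, smul_eq_mul, mul_one]
    -- Hall
    have hall : ∀ T : Finset {v // v ∈ P}, T.card ≤ (T.biUnion (fun v =>
        Q.filter (fun a => ¬ (bad v.1 a ∨ ∃ g ∈ A, g v.1 = a)))).card := by
      intro T
      by_contra hlt
      rw [not_le] at hlt
      have hTne : T.Nonempty := by
        rw [Finset.nonempty_iff_ne_empty]
        intro h
        rw [h] at hlt
        simp at hlt
      obtain ⟨v, hvT⟩ := hTne
      have hN1 : (Q.filter (fun a => ¬ (bad v.1 a ∨ ∃ g ∈ A, g v.1 = a))).card ≤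
          (T.biUnion (fun v => Q.filter (fun a => ¬ (bad v.1 a ∨ ∃ g ∈ A, g v.1 = a)))).card :=
        Finset.card_le_card fun a ha => Finset.mem_biUnion.2 ⟨v, hvT, ha⟩
      have hN2 := Finset.card_filter_add_card_filter_not (s := Q)
        (fun a => bad v.1 a ∨ ∃ g ∈ A, g v.1 = a)
      have hN3 := hrow v.1 v.2
      have hTP : T.card ≤ P.card := by
        have := Finset.card_le_univ T
        rwa [Fintype.card_coe] at this
      have hsubQ : T.biUnion (fun v =>
          Q.filter (fun a => ¬ (bad v.1 a ∨ ∃ g ∈ A, g v.1 = a))) ⊆ Q := by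
        intro a ha
        obtain ⟨w, _, hw⟩ := Finset.mem_biUnion.1 ha
        exact (Finset.mem_filter.1 hw).1
      have hex : ∃ a ∈ Q, a ∉ T.biUnion (fun v =>
          Q.filter (fun a => ¬ (bad v.1 a ∨ ∃ g ∈ A, g v.1 = a))) := by
        by_contra hno
        have hno' : Q ⊆ T.biUnion (fun v =>
            Q.filter (fun a => ¬ (bad v.1 a ∨ ∃ g ∈ A, g v.1 = a))) := by
          intro a ha
          by_contra h
          exact hno ⟨a, ha, h⟩
        have := Finset.card_le_card hno'
        omega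
      obtain ⟨a, haQ, ha⟩ := hex
      have hT2 : T.card ≤ (P.filter (fun v => bad v a ∨ ∃ g ∈ A, g v = a)).card := by
        refine Finset.card_le_card_of_injOn (fun v => v.1) (fun w hw => ?_)
          (fun w _ w' _ h => Subtype.ext h)
        rw [Finset.mem_coe, Finset.mem_filter]
        refine ⟨w.2, ?_⟩
        by_contra hn
        exact ha (Finset.mem_biUnion.2 ⟨w, Finset.mem_coe.1 hw, Finset.mem_filter.2 ⟨haQ, hn⟩⟩)
      have := hcol a haQ
      omega
    obtain ⟨f, hf1, hf2⟩ := (Finset.all_card_le_biUnion_card_iff_exists_injective _).1 hall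
    have hPne : P.Nonempty := by
      rw [← Finset.card_pos]
      omega
    obtain ⟨v₀, hv₀⟩ := hPne
    obtain ⟨g, hg⟩ : ∃ g : V → C, ∀ v (h : v ∈ P), g v = f ⟨v, h⟩ :=
      ⟨fun v => if h : v ∈ P then f ⟨v, h⟩ else f ⟨v₀, hv₀⟩, fun v h => dif_pos h⟩
    have hgQ : ∀ v ∈ P, g v ∈ Q ∧ ¬ (bad v (g v) ∨ ∃ g' ∈ A, g' v = g v) := by
      intro v hv
      have := hf2 ⟨v, hv⟩
      rw [Finset.mem_filter] at this
      rw [hg v hv]
      exact this
    have hne : ∀ g' ∈ A, ∀ v ∈ P, g v ≠ g' v := fun g' hg' v hv h =>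
      (hgQ v hv).2 (Or.inr ⟨g', hg', h.symm⟩)
    have hgA : g ∉ A := fun h => hne g h v₀ hv₀ rfl
    refine ⟨insert g A, by rw [Finset.card_insert_of_notMem hgA, hA], ?_, ?_⟩
    · intro g' hg'
      rcases Finset.mem_insert.1 hg' with rfl | hg'
      · refine ⟨fun v hv w hw h => ?_, fun v hv => (hgQ v hv).1, fun v hv h =>
          (hgQ v hv).2 (Or.inl h)⟩
        rw [hg v (Finset.mem_coe.1 hv), hg w (Finset.mem_coe.1 hw)] at h
        exact congrArg Subtype.val (hf1 h)
      · exact hA1 g' hg'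
    · intro g₁ h₁ g₂ h₂ h₁₂ v hv
      rcases Finset.mem_insert.1 h₁ with e₁ | h₁
      · rcases Finset.mem_insert.1 h₂ with e₂ | h₂
        · exact absurd (e₁.trans e₂.symm) h₁₂
        · rw [e₁]
          exact hne g₂ h₂ v hv
      · rcases Finset.mem_insert.1 h₂ with e₂ | h₂
        · rw [e₂]
          exact (hne g₁ h₁ v hv).symm
        · exact hA2 g₁ h₁ g₂ h₂ h₁₂ v hv

end Pool.Agent.Helper95.BC
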